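import Pool.Agent.N53.RO.All

/-!
# A local criterion for rank one isometries

Let `G` act geometrically on a proper CAT(0) space `X` and suppose that `G` contains no rank one
isometry.  Theorem: the closure of every `G`-orbit at infinity contains a point `ξ` such that every
geodesic line with an end in the orbit of `ξ` bounds a flat half-plane.

If `X` is geodesically complete then through every point `x` of `X` there is such a line, and every
way to prolong the ray from `x` to `ξ` beyond `x` gives one.  So alternative (iii) of rank rigidity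
follows from a condition on one ball: if for one point `x` and one `R > 0` every point `a` of the
sphere of radius `R` around `x` has an opposite point `b` (so that `x` is the midpoint of a geodesic
`[a, b]` of length `2 R`) such that `[a, b]` is not the diameter of a flat half-disc, then `G`
contains a rank one isometry.  This is the case if the curvature is negative near one point of `X`
(or if one link of `X` has radius larger than `π`).

Idea of the proof.  Choose `ξ` in a minimal closed invariant set `M` at infinity.  Let `σ` be a line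
from `ξ` to `η` and let `gₙ ∈ G` with `gₙ o` near `σ n`.  The limit `ζ` of `gₙ⁻¹ ξ`, which is also
the limit of `gₙ⁻¹ o`, is in `M`, so `ξ` is a limit of points `h ζ`, `h ∈ G`.  The elements
`g = gₙ h⁻¹` have `g o → η` and `g⁻¹ o → ξ`: the ends of `σ` are dual.  If `σ` bounds no flat
half-plane then the closing lemma shows that `g` is a rank one isometry.
-/

set_option autoImplicit false

namespace Pool.Agent.Results.MP_ff40e8_al.LocalCriterion

open Set Metric

/-- The inequality of Bruhat and Tits: a complete metric space is CAT(0) if and only if any two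
points `p`, `q` have a midpoint `m` such that
`d(x, m)² ≤ (d(x, p)² + d(x, q)²) / 2 - d(p, q)² / 4` for all `x`. -/
def BruhatTits (X : Type*) [MetricSpace X] : Prop := ∀ p q : X, ∃ m : X, ∀ x : X,
  dist x m ^ 2 ≤ (dist x p ^ 2 + dist x q ^ 2) / 2 - dist p q ^ 2 / 4

/-- Every geodesic segment extends to a geodesic line: for `p ≠ q` there is a line through `p` and
`q` (in a CAT(0) space it contains the unique geodesic segment from `p` to `q`). -/
def GeodesicallyComplete (X : Type*) [MetricSpace X] : Prop :=
  ∀ p q : X, p ≠ q → ∃ c : ℝ → X, Isometry c ∧ c 0 = p ∧ c (dist p q) = q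

/-- The line `c` bounds a flat half-plane: there is an isometric embedding `H` of the Euclidean
half-plane `ℝ × [0, ∞)` in `X` which extends `c`. -/
def BoundsHalfPlane {X : Type*} [MetricSpace X] (c : ℝ → X) : Prop :=
  ∃ H : ℝ × NNReal → X,
    (∀ p q : ℝ × NNReal, dist (H p) (H q) ^ 2 = (p.1 - q.1) ^ 2 + ((p.2 : ℝ) - q.2) ^ 2) ∧
    ∀ t : ℝ, H (t, 0) = c t

/-- `g` is a rank one isometry of `X`: it translates a geodesic line `c` by `τ > 0`, and this axis
does not bound a flat half-plane. -/
def IsRankOne (X : Type*) [MetricSpace X] {G : Type*} [Group G] [MulAction G X] (g : G) : Prop :=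
  ∃ (τ : ℝ) (c : ℝ → X), 0 < τ ∧ Isometry c ∧ (∀ t, g • c t = c (t + τ)) ∧ ¬ BoundsHalfPlane c

/-- `c` (restricted to `[0, ∞)`) is a geodesic ray from `x`. -/
def IsRay {X : Type*} [MetricSpace X] (x : X) (c : ℝ → X) : Prop :=
  c 0 = x ∧ ∀ s t : ℝ, 0 ≤ s → 0 ≤ t → dist (c s) (c t) = |s - t|

/-- The rays `c`, `c'` (restricted to `[0, ∞)`) have bounded distance: they represent the same point
at infinity. -/
def Asymptotic {X : Type*} [MetricSpace X] (c c' : ℝ → X) : Prop :=
  ∃ K : ℝ, ∀ t : ℝ, 0 ≤ t → dist (c t) (c' t) ≤ K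

/-- The end of the ray `c` from `x` is in the closure (cone topology) of the `G`-orbit of the end of
the ray `c₀`: rays from `x` which represent points of the orbit are close to `c` for a long time. -/
def InOrbitClosure {X : Type*} [MetricSpace X] (G : Type*) [Group G] [MulAction G X] (x : X)
    (c₀ c : ℝ → X) : Prop :=
  ∀ T ε : ℝ, 0 < ε → ∃ (g : G) (c' : ℝ → X), IsRay x c' ∧ Asymptotic c' (fun t => g • c₀ t) ∧
    ∀ t : ℝ, 0 ≤ t → t ≤ T → dist (c t) (c' t) ≤ ε

/-- The points `a` and `b` are the ends of the diameter of a flat half-disc of radius `R`: there is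
an isometric embedding of the Euclidean half-disc `{(s, h) | s² + h² ≤ R², h ≥ 0}` in `X` which maps
`(-R, 0)` to `a` and `(R, 0)` to `b`. -/
def BoundsHalfDisc {X : Type*} [MetricSpace X] (R : ℝ) (a b : X) : Prop :=
  ∃ H : ℝ × NNReal → X,
    (∀ p q : ℝ × NNReal, p.1 ^ 2 + (p.2 : ℝ) ^ 2 ≤ R ^ 2 → q.1 ^ 2 + (q.2 : ℝ) ^ 2 ≤ R ^ 2 →
      dist (H p) (H q) ^ 2 = (p.1 - q.1) ^ 2 + ((p.2 : ℝ) - q.2) ^ 2) ∧
    H (-R, 0) = a ∧ H (R, 0) = b

/-- Let `G` act geometrically (by isometries, properly discontinuously, cocompactly) on a proper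
CAT(0) space `X` and suppose that no element of `G` is a rank one isometry.
(1) For every point `x` and every ray `c₀` from `x` there is a ray `c` from `x` whose end is in the
closure of the orbit of the end of `c₀`, such that every line with an end in the orbit of the end
of `c` bounds a flat half-plane; and if `X` is geodesically complete then every geodesic of length
`2 R` with midpoint `x` which starts along `c` is the diameter of a flat half-disc.
(2) If `X` is geodesically complete and has two points then every sphere (centre `x`, radius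
`R > 0`) contains a point `a` such that every geodesic `[a, b]` of length `2 R` with midpoint `x` is
the diameter of a flat half-disc. -/
theorem result {X : Type*} [MetricSpace X] [ProperSpace X] (hX : BruhatTits X)
    {G : Type*} [Group G] [MulAction G X] [IsIsometricSMul G X] [ProperlyDiscontinuousSMul G X]
    (hcc : ∃ K : Set X, IsCompact K ∧ ∀ x : X, ∃ g : G, g • x ∈ K)
    (hno : ∀ g : G, ¬ IsRankOne X g) :
    (∀ (x : X) (c₀ : ℝ → X), IsRay x c₀ → ∃ c : ℝ → X, IsRay x c ∧ InOrbitClosure G x c₀ c ∧
      (∀ (g : G) (σ : ℝ → X), Isometry σ → Asymptotic (fun t => σ (-t)) (fun t => g • c t) →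
        BoundsHalfPlane σ) ∧
      (GeodesicallyComplete X → ∀ R : ℝ, 0 < R → ∀ b : X, dist x b = R → dist (c R) b = 2 * R →
        BoundsHalfDisc R (c R) b)) ∧
    (GeodesicallyComplete X → (∃ p q : X, p ≠ q) → ∀ (x : X) (R : ℝ), 0 < R → ∃ a : X,
      dist x a = R ∧ ∀ b : X, dist x b = R → dist a b = 2 * R → BoundsHalfDisc R a b) := by
  have hG : Pool.Agent.Y34.HB.Geo X G := ⟨inferInstance, inferInstance, inferInstance, hcc, hX⟩
  have hno' : ∀ g : G, ¬ Pool.Agent.Y34.EL.RankOne X g := by
    rintro g ⟨τ, c, hτ, hc, he⟩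
    refine hno g ⟨τ, c, hτ, hc.1, hc.2, ?_⟩
    rintro ⟨H, hH⟩
    have : H ∈ Pool.Agent.Y34.HB.HP c := hH
    rw [he] at this
    exact this
  have h1 : ∀ (x : X) (c₀ : ℝ → X), IsRay x c₀ → ∃ c : ℝ → X, IsRay x c ∧
      InOrbitClosure G x c₀ c ∧
      (∀ (g : G) (σ : ℝ → X), Isometry σ → Asymptotic (fun t => σ (-t)) (fun t => g • c t) →
        BoundsHalfPlane σ) ∧
      (GeodesicallyComplete X → ∀ R : ℝ, 0 < R → ∀ b : X, dist x b = R → dist (c R) b = 2 * R →
        BoundsHalfDisc R (c R) b) := by
    intro x c₀ hc₀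
    obtain ⟨c, h1, h2, h3⟩ := Pool.Agent.N53.RO.main hG hno' (x := x) (c₀ := c₀) hc₀
    refine ⟨c, h1, h2, fun g σ hσ hσc => ?_, fun hGC R hR b hb hcb => ?_⟩
    · obtain ⟨H, hH⟩ := h3 g σ hσ hσc
      exact ⟨H, hH⟩
    · obtain ⟨σ, h4, h5, h6, H, hH⟩ := Pool.Agent.N53.RO.half_disc hG hGC h1
        (fun σ hσ ⟨K, hK⟩ => h3 1 σ hσ ⟨K, fun t ht => by
          show dist (σ (-t)) ((1 : G) • c t) ≤ K
          rw [one_smul]
          exact hK t ht⟩) hR hb hcb
      refine ⟨H, fun p q _ _ => hH.1 p q, ?_, ?_⟩
      · rw [hH.2, h5 R hR.le]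
      · rw [hH.2, h6]
  refine ⟨h1, fun hGC hne x R hR => ?_⟩
  obtain ⟨c₀, hc₀⟩ := Pool.Agent.N53.RO.exists_ray hGC hne x
  obtain ⟨c, h2, -, -, h3⟩ := h1 x c₀ hc₀
  refine ⟨c R, ?_, h3 hGC R hR⟩
  have h4 := h2.2 0 R le_rfl hR.le
  rw [h2.1, zero_sub, abs_neg, abs_of_nonneg hR.le] at h4
  exact h4

end Pool.Agent.Results.MP_ff40e8_al.LocalCriterion
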