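import Pool.Agent.N53.RO.Crit

/-!
# The closing problem for spaces with a reversible maximal flat

Let `G` act geometrically on a proper CAT(0) space `X`, without rank one isometries.  The first step
of rank rigidity (the closing problem of Ballmann and Buyalo) is to show that every geodesic line of
`X` bounds a flat half-plane, that is, that the Tits boundary of `X` has diameter at most `π`.  We
prove this if `X` contains a flat `F` of maximal dimension `n` (`n` is arbitrary) each of whose
directions `u` is of one of the following two kinds, with a constant `C`:

* all geodesics of `F` with the direction `u` are reversed by elements of `G`: for all `v` there is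
  `g ∈ G` which moves the ray from `F v` in the direction `-u` to the distance at most `C` from the
  ray in the direction `u`; or
* every geodesic line of `X` which is asymptotic to the ray of `F` with the direction `u` bounds a
  flat half-plane.

For example, `F` is periodic and an element of `G` acts on `F` as a point reflection (all directions
are of the first kind).

Idea of the proof.  Let `Z` be the set of the points at infinity such that all lines which end there
bound flat half-planes.  It is closed, and invariant.  Suppose that a line with the end `ξ` bounds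
no half-plane.  The points `a` which are dual to `ξ` (there are `g ∈ G` with `g o → a`,
`g⁻¹ o → ξ`) form a closed invariant set; let `N` be a minimal closed invariant subset of it.  If
`a ∈ N` and `y` are joined by a line, then the sum of the angles at `o` and `g⁻¹ o` in the triangle
`o`, `g⁻¹ o`, `g⁻¹ y` shows that `g⁻¹ y → ξ`.  So `y ∉ Z`: no line joins `N` to `Z`.  As there is
no rank one isometry, `N` is contained in `Z`.  We move `F` by `G`, in the directions of a basis,
until the Busemann function of a point `a` of `N` is affine on the limit `F'` of the translates of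
`F`.  If the gradient had norm less than one then `F'` and the rays to `a` would span a flat
half-space of larger dimension.  So `a` is in the boundary of `F'`, and the opposite point of this
boundary is not in `Z`.  But the condition on `F` passes to `F'`, and it implies that the opposite
point is in `Z` (in the first case it is in `N`).
-/

set_option autoImplicit false

namespace Pool.Agent.Results.MP_ff40e8_al.ReversibleFlat

open Set Metric

/-- The inequality of Bruhat and Tits: a complete metric space is CAT(0) if and only if any two
points `p`, `q` have a midpoint `m` such that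
`d(x, m)² ≤ (d(x, p)² + d(x, q)²) / 2 - d(p, q)² / 4` for all `x`. -/
def BruhatTits (X : Type*) [MetricSpace X] : Prop := ∀ p q : X, ∃ m : X, ∀ x : X,
  dist x m ^ 2 ≤ (dist x p ^ 2 + dist x q ^ 2) / 2 - dist p q ^ 2 / 4

/-- The line `c` bounds a flat half-plane: there is an isometric embedding `H` of the Euclidean
half-plane `ℝ × [0, ∞)` in `X` which extends `c`. -/
def BoundsHalfPlane {X : Type*} [MetricSpace X] (c : ℝ → X) : Prop :=
  ∃ H : ℝ × NNReal → X,
    (∀ p q : ℝ × NNReal, dist (H p) (H q) ^ 2 = (p.1 - q.1) ^ 2 + ((p.2 : ℝ) - q.2) ^ 2) ∧
    ∀ t : ℝ, H (t, 0) = c t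

/-- `g` is a rank one isometry of `X`: it translates a geodesic line `c` by `τ > 0`, and this axis
does not bound a flat half-plane. -/
def IsRankOne (X : Type*) [MetricSpace X] {G : Type*} [Group G] [MulAction G X] (g : G) : Prop :=
  ∃ (τ : ℝ) (c : ℝ → X), 0 < τ ∧ Isometry c ∧ (∀ t, g • c t = c (t + τ)) ∧ ¬ BoundsHalfPlane c

/-- The rays `c`, `c'` (restricted to `[0, ∞)`) have bounded distance: they represent the same point
at infinity. -/
def Asymptotic {X : Type*} [MetricSpace X] (c c' : ℝ → X) : Prop :=
  ∃ K : ℝ, ∀ t : ℝ, 0 ≤ t → dist (c t) (c' t) ≤ K

/-- Every line with an end in the end of the ray `c` bounds a flat half-plane. -/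
def HalfPlaneEnd {X : Type*} [MetricSpace X] (c : ℝ → X) : Prop :=
  ∀ σ : ℝ → X, Isometry σ → Asymptotic (fun t => σ (-t)) c → BoundsHalfPlane σ

/-- `F` is a flat of dimension `n`, and there are no flats of dimension `n + 1`. -/
def IsMaximalFlat {X : Type*} [MetricSpace X] (n : ℕ) (F : EuclideanSpace ℝ (Fin n) → X) : Prop :=
  Isometry F ∧ ∀ F' : EuclideanSpace ℝ (Fin (n + 1)) → X, ¬ Isometry F'

/-- The direction `u` of the flat `F` is reversed up to `C`: every geodesic ray of `F` from `F v` in
the direction `-u` is moved by an element of `G` to the distance at most `C` from the opposite ray,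
the one from `F v` in the direction `u`. -/
def ReversedDirection {X : Type*} [MetricSpace X] (G : Type*) [Group G] [MulAction G X] {n : ℕ}
    (F : EuclideanSpace ℝ (Fin n) → X) (C : ℝ) (u : EuclideanSpace ℝ (Fin n)) : Prop :=
  ∀ v : EuclideanSpace ℝ (Fin n), ∃ g : G, ∀ t : ℝ, 0 ≤ t →
    dist (g • F (v - t • u)) (F (v + t • u)) ≤ C

/-- Let `G` act geometrically (by isometries, properly discontinuously, cocompactly) on a proper
CAT(0) space `X`, and let `F` be a flat of maximal dimension in `X`.  Suppose that for a constant
`C` every direction of `F` is reversed up to `C` by elements of `G`, or all lines which are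
asymptotic to it bound flat half-planes.  Then some element of `G` is a rank one isometry or every
geodesic line of `X` bounds a flat half-plane. -/
theorem result {X : Type*} [MetricSpace X] [ProperSpace X] (hX : BruhatTits X)
    {G : Type*} [Group G] [MulAction G X] [IsIsometricSMul G X] [ProperlyDiscontinuousSMul G X]
    (hcc : ∃ K : Set X, IsCompact K ∧ ∀ x : X, ∃ g : G, g • x ∈ K)
    (n : ℕ) (F : EuclideanSpace ℝ (Fin n) → X) (hF : IsMaximalFlat n F) (C : ℝ)
    (h : ∀ u : EuclideanSpace ℝ (Fin n), ‖u‖ = 1 →
      ReversedDirection G F C u ∨ HalfPlaneEnd (fun t : ℝ => F (t • u))) :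
    (∃ g : G, IsRankOne X g) ∨ ∀ σ : ℝ → X, Isometry σ → BoundsHalfPlane σ := by
  have hG : Pool.Agent.Y34.HB.Geo X G := ⟨inferInstance, inferInstance, inferInstance, hcc, hX⟩
  by_cases hno : ∃ g : G, IsRankOne X g
  · exact Or.inl hno
  · right
    intro σ hσ
    refine Pool.Agent.N53.RO.crit_mix hG ?_ hF.2 hF.1 (C := C) ?_ σ hσ
    · rintro g ⟨τ, c, hτ, hc, he⟩
      refine hno ⟨g, τ, c, hτ, hc.1, hc.2, ?_⟩
      rintro ⟨H, hH⟩
      have : H ∈ Pool.Agent.Y34.HB.HP c := hH
      rw [he] at this
      exact this
    · intro v u hu
      rcases h u hu with h1 | h1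
      · exact Or.inl (h1 v)
      · exact Or.inr fun τ hτ hτc => h1 τ hτ hτc

end Pool.Agent.Results.MP_ff40e8_al.ReversibleFlat
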