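import Pool.Agent.N53.RO.Gap

/-!
# The closing problem and the Tits distances of minimal sets

Let `G` act geometrically on a proper CAT(0) space `X` and suppose that `G` contains no rank one
isometry.  The first step of rank rigidity (the closing problem of Ballmann and Buyalo) is to show
that then every geodesic line of `X` bounds a flat half-plane, that is, that the Tits boundary of `X`
has diameter at most `π`.  We show that otherwise there is a minimal closed invariant set `N` at
infinity whose Tits diameter is smaller than `π`; even the Tits distances between the points of `N`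
and the points of all minimal closed invariant sets, and the points `y` such that all lines which
end at `y` bound flat half-planes, are at most `π - δ` for some `δ > 0`.  (The Tits distance `τ ≤ π`
of the ends of two rays `c`, `c'` from `x` is given by `2 sin (τ / 2) = sup d(c t, c' t) / t`.)
So every line of `X` bounds a flat half-plane as soon as the Tits diameter of every minimal closed
invariant set is at least `π`.

Idea of the proof.  Let `Z` be the set of the points at infinity such that all lines which end there
bound flat half-planes.  It is closed, and invariant, and as there is no rank one isometry it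
contains all minimal sets.  Suppose that a line with the end `ξ` bounds no half-plane.  The points
`a` which are dual to `ξ` (there are `g ∈ G` with `g o → a`, `g⁻¹ o → ξ`) form a closed invariant
set; let `N` be a minimal closed invariant subset of it.  If `a ∈ N` and `y` are joined by a line,
then the sum of the angles at `o` and `g⁻¹ o` in the triangle `o`, `g⁻¹ o`, `g⁻¹ y` shows that
`g⁻¹ y → ξ`.  So `y ∉ Z`: no line joins `N` to `Z`.  If the Tits distances between the points of `N`
and of `Z` were not bounded away from `π` then we could move long pieces of rays to points of `N`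
and `Z`, on which the sum of the two Busemann functions is almost constant, to a fixed compact set,
and in the limit we get a line which joins `N` to `Z`.
-/

set_option autoImplicit false

namespace Pool.Agent.Results.MP_ff40e8_al.TitsGap

open Set Metric

/-- The inequality of Bruhat and Tits: a complete metric space is CAT(0) if and only if any two
points `p`, `q` have a midpoint `m` such that
`d(x, m)² ≤ (d(x, p)² + d(x, q)²) / 2 - d(p, q)² / 4` for all `x`. -/
def BruhatTits (X : Type*) [MetricSpace X] : Prop := ∀ p q : X, ∃ m : X, ∀ x : X,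
  dist x m ^ 2 ≤ (dist x p ^ 2 + dist x q ^ 2) / 2 - dist p q ^ 2 / 4

/-- The line `c` bounds a flat half-plane: there is an isometric embedding `H` of the Euclidean
half-plane `ℝ × [0, ∞)` in `X` which extends `c`. -/
def BoundsHalfPlane {X : Type*} [MetricSpace X] (c : ℝ → X) : Prop :=
  ∃ H : ℝ × NNReal → X,
    (∀ p q : ℝ × NNReal, dist (H p) (H q) ^ 2 = (p.1 - q.1) ^ 2 + ((p.2 : ℝ) - q.2) ^ 2) ∧
    ∀ t : ℝ, H (t, 0) = c t

/-- `g` is a rank one isometry of `X`: it translates a geodesic line `c` by `τ > 0`, and this axis
does not bound a flat half-plane. -/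
def IsRankOne (X : Type*) [MetricSpace X] {G : Type*} [Group G] [MulAction G X] (g : G) : Prop :=
  ∃ (τ : ℝ) (c : ℝ → X), 0 < τ ∧ Isometry c ∧ (∀ t, g • c t = c (t + τ)) ∧ ¬ BoundsHalfPlane c

/-- `c` (restricted to `[0, ∞)`) is a geodesic ray from `x`. -/
def IsRay {X : Type*} [MetricSpace X] (x : X) (c : ℝ → X) : Prop :=
  c 0 = x ∧ ∀ s t : ℝ, 0 ≤ s → 0 ≤ t → dist (c s) (c t) = |s - t|

/-- The rays `c`, `c'` (restricted to `[0, ∞)`) have bounded distance: they represent the same point
at infinity. -/
def Asymptotic {X : Type*} [MetricSpace X] (c c' : ℝ → X) : Prop :=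
  ∃ K : ℝ, ∀ t : ℝ, 0 ≤ t → dist (c t) (c' t) ≤ K

/-- The end of the ray `c` from `x` is in the closure (cone topology) of the `G`-orbit of the end of
the ray `c₀`: rays from `x` which represent points of the orbit are close to `c` for a long time. -/
def InOrbitClosure {X : Type*} [MetricSpace X] (G : Type*) [Group G] [MulAction G X] (x : X)
    (c₀ c : ℝ → X) : Prop :=
  ∀ T ε : ℝ, 0 < ε → ∃ (g : G) (c' : ℝ → X), IsRay x c' ∧ Asymptotic c' (fun t => g • c₀ t) ∧
    ∀ t : ℝ, 0 ≤ t → t ≤ T → dist (c t) (c' t) ≤ ε

/-- The end of the ray `c₀` from `x` is in a minimal closed invariant subset of the boundary at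
infinity: it is in the closure of the orbit of every point of the closure of its orbit. -/
def MinimalEnd {X : Type*} [MetricSpace X] (G : Type*) [Group G] [MulAction G X] (x : X)
    (c₀ : ℝ → X) : Prop :=
  IsRay x c₀ ∧ ∀ c : ℝ → X, IsRay x c → InOrbitClosure G x c₀ c → InOrbitClosure G x c c₀

/-- Every line with an end in the end of the ray `c` bounds a flat half-plane. -/
def HalfPlaneEnd {X : Type*} [MetricSpace X] (c : ℝ → X) : Prop :=
  ∀ σ : ℝ → X, Isometry σ → Asymptotic (fun t => σ (-t)) c → BoundsHalfPlane σ

/-- Let `G` act geometrically (by isometries, properly discontinuously, cocompactly) on a proper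
CAT(0) space `X`, and let `x` be a point of `X`.  Then some element of `G` is a rank one isometry, or
every geodesic line of `X` bounds a flat half-plane, or there are a ray `c₀` from `x` whose end is in
a minimal closed invariant set `N` (the closure of its orbit) and `ε > 0` such that
`d(c t, c' t) ≤ (2 - ε) t` for all `t ≥ 0` and all rays `c`, `c'` from `x` such that the end of `c` is
in `N` and the end of `c'` is in a minimal closed invariant set (for example in `N`) or is a point
such that all lines which end there bound flat half-planes. -/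
theorem result {X : Type*} [MetricSpace X] [ProperSpace X] (hX : BruhatTits X)
    {G : Type*} [Group G] [MulAction G X] [IsIsometricSMul G X] [ProperlyDiscontinuousSMul G X]
    (hcc : ∃ K : Set X, IsCompact K ∧ ∀ x : X, ∃ g : G, g • x ∈ K) (x : X) :
    (∃ g : G, IsRankOne X g) ∨ (∀ σ : ℝ → X, Isometry σ → BoundsHalfPlane σ) ∨
    ∃ c₀ : ℝ → X, MinimalEnd G x c₀ ∧ ∃ ε : ℝ, 0 < ε ∧ ∀ c c' : ℝ → X,
      IsRay x c → InOrbitClosure G x c₀ c → IsRay x c' → (MinimalEnd G x c' ∨ HalfPlaneEnd c') →
      ∀ t : ℝ, 0 ≤ t → dist (c t) (c' t) ≤ (2 - ε) * t := by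
  have hG : Pool.Agent.Y34.HB.Geo X G := ⟨inferInstance, inferInstance, inferInstance, hcc, hX⟩
  by_cases hno : ∃ g : G, IsRankOne X g
  · exact Or.inl hno
  by_cases hh : ∀ σ : ℝ → X, Isometry σ → BoundsHalfPlane σ
  · exact Or.inr (Or.inl hh)
  right
  right
  push Not at hh
  obtain ⟨σ₀, hσ₀, he⟩ := hh
  obtain ⟨c₀, h1, h2, ε, hε, h3⟩ := Pool.Agent.N53.RO.gap hG (by
    rintro g ⟨τ, c, hτ, hc, he⟩
    refine hno ⟨g, τ, c, hτ, hc.1, hc.2, ?_⟩
    rintro ⟨H, hH⟩
    have : H ∈ Pool.Agent.Y34.HB.HP c := hH
    rw [he] at this
    exact this) hσ₀ he x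
  refine ⟨c₀, ⟨h1, h2⟩, ε, hε, fun c c' hc hcc hc' h t ht => h3 c c' hc hcc hc' ?_ t ht⟩
  exact h.imp (fun h => h.2) fun h σ hσ hσc => h σ hσ hσc

end Pool.Agent.Results.MP_ff40e8_al.TitsGap
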